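import Pool.Agent.H4.OG.Whi

set_option autoImplicit false

/-!
# The conjecture in low degrees is equivalent to injectivity for one subgroup of index two

For a ring `R` and a group `G` let `Wh_1` be the cokernel of the assembly map in degree one, that is, the
quotient of `K_1(R[G])` by the classes of the invertible matrices over `R` and of the automorphisms
`1 - e + g e` for the idempotent matrices `e` over `R` and the elements `g` of `G`.

There are a countable torsion-free group `V` and a subgroup `L` of index two such that for every ring
`R` the following are equivalent.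
(a) The maps `K_0(R[L]) → K_0(R[V])` and `Wh_1(L) → Wh_1(V)` are injective.
(b) For all torsion-free groups `G`: `Wh_1(G) = 0`, `K_0(R) → K_0(R[G])` is bijective, and
`K_{-n}(R[G]) = 0` for `n ≥ 1`.
(c) The maps in (a) are injective for all subgroups of torsion-free groups.
Countable regular rings suffice in order to treat all regular rings.

Proof. Let `V = (G × G) ⋊ ℤ`, where `ℤ` acts by interchanging the factors, and `L = (G × G) × 2ℤ`. The
two embeddings of `G` in `L` are conjugate in `V`, hence an element `x` of `K_0(R[G])` or `Wh_1(G)` has
the same images in `V` (in degree one one uses Whitehead's lemma). If the maps in (a) are injective,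
the projection `L → G` shows that `x` is constant. For `G` one takes a countable torsion-free group which
has the largest torsion-free quotients of all finitely presented groups as retracts.
-/

namespace Pool.Agent.Results.MP_c052b4_al.IndexTwoPair

open Pool.Agent.H4.OG Pool.Agent.H4.Reg Pool.Agent.H84.W

/-- The induction maps `K_0(R[L]) → K_0(R[V])` and `Wh_1(L) → Wh_1(V)` are injective. -/
def IndInj (R : Type) [Ring R] {V : Type} [Group V] (L : Subgroup V) : Prop :=
  Function.Injective (kmap R 0 L.subtype) ∧ WhInj R L.subtype

theorem indInj_of_low (R : Type) [Ring R] (h : ∀ (G : Type) [Group G], TF G → Low R G)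
    {V : Type} [Group V] (hV : TF V) (L : Subgroup V) : IndInj R L := by
  have hL : TF L := fun g hg => Subtype.ext
    (hV g.1 (MonoidHom.isOfFinOrder L.subtype hg))
  refine ⟨fun x y hxy => ?_, fun n u _ => (h L hL).one n u⟩
  obtain ⟨a, rfl⟩ := (h L hL).zero.2 x
  obtain ⟨b, rfl⟩ := (h L hL).zero.2 y
  rw [← kmap_comp, ← kmap_comp] at hxy
  have h1 : L.subtype.comp (1 : Unit →* L) = 1 := rfl
  rw [h1] at hxy
  rw [(h V hV).zero.1 hxy]

/-- There are a countable torsion-free group `V` and a subgroup `L` of index two such that (1) for
every ring `R`: the induction maps `K_0(R[L]) → K_0(R[V])` and `Wh_1(L) → Wh_1(V)` are injective if and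
only if `Low R G` holds for all torsion-free groups `G`, if and only if these maps are injective for all
subgroups of torsion-free groups; (2) `Low R G` holds for all regular rings `R` and all torsion-free
groups `G` if and only if the two maps are injective for all countable regular rings `R`. -/
theorem result : ∃ (V : Type) (_ : Group V) (L : Subgroup V), Countable V ∧ TF V ∧ L.index = 2 ∧
    (∀ (R : Type) [Ring R],
      (IndInj R L ↔ ∀ (G : Type) [Group G], TF G → Low R G) ∧
      (IndInj R L ↔ ∀ (V' : Type) [Group V'] (L' : Subgroup V'), TF V' → IndInj R L')) ∧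
    ((∀ (R : Type) [Ring R], Regular R → ∀ (G : Type) [Group G], TF G → Low R G) ↔
      ∀ (R : Type) [Ring R], Countable R → Regular R → IndInj R L) := by
  have hU : TF UU := tfcl_tf RU
  have hV := VV_tf UU hU
  have key2 : ∀ (R : Type) [Ring R], IndInj R (LL UU) → Surj1 R UU ∧ Const R 0 UU :=
    fun R _ h => ⟨surj1_of_whInj R UU h.2, const_of_inj R 0 UU h.1⟩
  have key : ∀ (R : Type) [Ring R], IndInj R (LL UU) →
      ∀ (G : Type) [Group G], TF G → Low R G :=
    fun R _ h G _ hG => low_all R (key2 R h).1 (key2 R h).2 G hG
  refine ⟨VV UU, inferInstance, LL UU, ?_, hV, LL_index UU, fun R _ => ⟨⟨fun h =>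
    key R h, fun h => indInj_of_low R h hV _⟩, ⟨fun h V' _ L' hV' =>
      indInj_of_low R (key R h) hV' L', fun h => h _ _ hV⟩⟩,
    ⟨fun h R _ _ hR => indInj_of_low R (h R hR) hV _, fun h R _ hR G _ hG => ?_⟩⟩
  · exact (SemidirectProduct.equivProd (φ := phi UU)).injective.countable
  · exact low_all R (surj1_countable R UU (fun S _ hS hS2 => (key2 S (h S hS hS2)).1) hR)
      (const_countable R 0 UU (fun S _ hS hS2 => (key2 S (h S hS hS2)).2) hR) G hG

end Pool.Agent.Results.MP_c052b4_al.IndexTwoPair
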