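import Pool.Agent.H4.OF.Low1

set_option autoImplicit false

/-!
# The degrees at most one over fields: one algebraically closed field decides

Let `k` be a field and `G` a torsion-free group. The assembly map in degree one is onto if and only if
every invertible matrix over `k[G]` is stably a product of elementary matrices, invertible matrices over
`k` and matrices `1 - e + g e` (`e` an idempotent matrix over `k`, `g` in `G`); in degree zero it is
`K_0(k) → K_0(k[G])`, and in negative degrees its source is zero.

Fix a characteristic `p`. We show that the isomorphism conjecture in the degrees `≤ 1` for all
algebraically closed fields of characteristic `p` and all torsion-free groups is decided by one group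
`U` and one algebraically closed field `K` of infinite transcendence degree, for example `K = ℂ`. The
same group ring decides the rational conjecture in the degrees `≤ 1` for all fields of
characteristic `p`, algebraically closed or not. Both are equivalent to uniform bounds: for the
stabilizations and for the numbers of factors and of their terms; in characteristic zero the bounds
carry over to all fields of large characteristic.

The proof: a product decomposition over an extension field of `k` descends to a finite extension `L` of
`k`; the transfer from `L` to `k` maps the generators to products of generators, and by the Whitehead
lemma its composition with the extension of the coefficients is stably the power with exponent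
`[L : k]`; finitely generated fields embed into `K`; uniform bounds follow by ultraproducts.
-/

namespace Pool.Agent.Results.MP_c052b4_al.OneFieldLowDegrees

open Pool.Agent.H4.UF Pool.Agent.H84.W Pool.Agent.H4.OG Pool.Agent.H4.OF

/-- There is a countable torsion-free group `U` such that for every `p` (zero or a prime number) and every
algebraically closed field `K` of characteristic `p` which contains an infinite sequence `x` of
algebraically independent elements (over `ZMod p`, which is `ℤ` for `p = 0`):

(1) the following are equivalent: for `K[U]` the assembly maps are onto in the degrees one and zero;
`Low k G`, that is, the assembly map is onto in degree one, bijective in degree zero and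
`K_{-n}(k[G]) = 0` for all `n ≥ 1`, for all algebraically closed fields `k` of characteristic `p` and
all torsion-free groups `G`; there are uniform bounds `F n s` for the idempotent and for the
invertible `n × n` matrices whose entries (and those of the inverse matrix) have at most `s` terms, for
all torsion-free groups and all algebraically closed fields of characteristic `p` or, if `p = 0`, of
characteristic greater than `F n s` (`LBound p`);

(2) the following are equivalent: for `K[U]` the cokernels of the assembly maps in the degrees one and
zero are torsion groups; `TLow k G`, that is, these cokernels and the groups `K_{-n}(k[G])`, `n ≥ 1`,
are torsion groups and the assembly map in degree zero is injective, for all fields `k` of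
characteristic `p` and all torsion-free groups `G`; there are uniform bounds and exponents, for all
fields of characteristic `p` or, if `p = 0`, of characteristic greater than `F n s` (`TLBound p`).

Every uncountable algebraically closed field of characteristic `p` contains such a sequence, and so
does some countable algebraically closed field of characteristic `p`. -/
theorem result : ∃ (U : Type) (_ : Group U), Countable U ∧ TF U ∧ ∀ p : ℕ, (p = 0 ∨ p.Prime) →
    (∀ (K : Type) [Field K] [IsAlgClosed K] [CharP K p] [Algebra (ZMod p) K] (x : ℕ → K),
      AlgebraicIndependent (ZMod p) x →
      List.TFAE [
        Surj1 K U ∧ Const K 0 U,
        ∀ (k : Type) [Field k] [IsAlgClosed k] [CharP k p] (G : Type) [Group G], TF G → Low k G,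
        LBound p] ∧
      List.TFAE [
        TSurj1 K U ∧ TConst K U,
        ∀ (k : Type) [Field k] [CharP k p] (G : Type) [Group G], TF G → TLow k G,
        TLBound p]) ∧
    (∀ (K : Type) [Field K] [IsAlgClosed K] [CharP K p] [Uncountable K] [Algebra (ZMod p) K],
      ∃ x : ℕ → K, AlgebraicIndependent (ZMod p) x) ∧
    (∃ (K : Type) (_ : Field K) (_ : IsAlgClosed K) (_ : CharP K p) (_ : Algebra (ZMod p) K)
      (x : ℕ → K), Countable K ∧ AlgebraicIndependent (ZMod p) x) := by
  refine ⟨UU, inferInstance, inferInstance, tfcl_tf RU, fun p hp => ⟨?_, ?_, ?_⟩⟩
  · intro K _ _ _ _ x hx
    exact ⟨low_tfae p K x hx, tlow_tfae p K x hx⟩
  · intro K _ _ _ _ _
    exact exists_indep p K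
  · rcases hp with rfl | hp
    · have : IsDomain (ZMod 0) := inferInstanceAs (IsDomain ℤ)
      exact exists_countable_field 0
    · have : Fact p.Prime := ⟨hp⟩
      exact exists_countable_field p

end Pool.Agent.Results.MP_c052b4_al.OneFieldLowDegrees
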