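import Pool.Agent.H4.OG.Low

set_option autoImplicit false

/-!
# One countable torsion-free group decides the conjecture in the degrees at most one

Let `R` be a ring and `G` a torsion-free group. If `R` is regular, then `H_n(BG; K(R)) = 0` for `n < 0`,
`H_0(BG; K(R)) = K_0(R)` and `H_1(BG; K(R)) = K_1(R) ⊕ (G_ab ⊗ K_0(R))`, and the assembly map sends
`g ⊗ [Rⁿe]` to the class of the automorphism `1 - e + g e` in `K_1(R[G])`.

There is a countable torsion-free group `U` such that for every ring `R`: if the assembly map of `U` is
surjective in the degrees `0` and `1`, then for all torsion-free groups `G` it is surjective in degree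
`1`, bijective in degree `0`, and `K_{-n}(R[G]) = 0` for all `n ≥ 1`. Moreover it suffices to know this
for the countable regular rings: every countable subset of a regular ring lies in a countable regular
subring.

For `R = ℤ` the condition says `Wh(U) = 0` and `K̃_0(ℤ[U]) = 0`.
-/

namespace Pool.Agent.Results.MP_c052b4_al.OneGroupLowDegrees

open Pool.Agent.H4.OG Pool.Agent.H4.Reg Pool.Agent.H84.W

/-- There is a countable torsion-free group `U` such that (1) the isomorphism conjecture in the
degrees `≤ 1` (`Low`) holds for all regular rings and all torsion-free groups if and only if for all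
countable regular rings `R` the assembly map of `U` is surjective in degree one (`Surj1`) and degree
zero (`Const R 0`); (2) for every ring `R`: the assembly map of `U` is surjective in the degrees zero
and one if and only if `Low R G` holds for all torsion-free groups `G`. -/
theorem result : ∃ (U : Type) (_ : Group U), Countable U ∧ TF U ∧
    ((∀ (R : Type) [Ring R], Regular R → ∀ (G : Type) [Group G], TF G → Low R G) ↔
      ∀ (R : Type) [Ring R], Countable R → Regular R → Surj1 R U ∧ Const R 0 U) ∧
    (∀ (R : Type) [Ring R], (Surj1 R U ∧ Const R 0 U) ↔
      ∀ (G : Type) [Group G], TF G → Low R G) := by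
  have h1 : TF UU := tfcl_tf RU
  refine ⟨UU, inferInstance, inferInstance, h1, ⟨fun h R _ _ hR => ?_, fun h R _ hR G _ hG => ?_⟩,
    fun R _ => ⟨fun h G _ hG => low_all R h.1 h.2 G hG, fun h => ?_⟩⟩
  · exact ⟨(h R hR UU h1).one, (h R hR UU h1).zero.2⟩
  · exact low_all R (surj1_countable R UU (fun S _ hS hS2 => (h S hS hS2).1) hR)
      (const_countable R 0 UU (fun S _ hS hS2 => (h S hS hS2).2) hR) G hG
  · exact ⟨(h UU h1).one, (h UU h1).zero.2⟩

end Pool.Agent.Results.MP_c052b4_al.OneGroupLowDegrees
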