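import Pool.Agent.H4.UF.Fin

set_option autoImplicit false

/-!
# Uniform bounds and large characteristics in degree zero

For a skew field `k` and a torsion-free group `G` the assembly map in degree zero is `ℤ = K_0(k) → K_0(k[G])`;
it is split injective, and it is surjective if and only if all finitely generated projective `k[G]`-modules
are stably free (`SF k G`). We show that this statement for all skew fields (or all fields) of
characteristic zero and all torsion-free groups is equivalent to the existence of uniform bounds which
also hold in all large positive characteristics: there is a function `F` such that for all `n`, `s`, all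
skew fields (fields) `k` whose characteristic is zero or greater than `F n s`, all torsion-free groups `G`
and all idempotent `n × n` matrices `e` over `k[G]` whose entries have at most `s` terms, there is an
isomorphism of `e ⊕ 1_a` and `1_b` with `a, b ≤ F n s`, given by matrices whose entries have at most
`F n s` terms. It is enough to know the statement for one countable group and countable `k`. The same
holds in each positive characteristic, and without any restriction of the characteristic.

The proof uses ultraproducts: the group ring of an ultraproduct of groups over an ultraproduct of skew
fields embeds into the ultraproduct of the group rings, and its elements are exactly those which have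
representatives with boundedly many terms.
-/

namespace Pool.Agent.Results.MP_c052b4_al.UniformBounds

open Pool.Agent.H4.UF Pool.Agent.H84.W

/-- There is a countable torsion-free group `U` such that for the class of all skew fields (`c` false)
and the class of all fields (`c` true) the following are equivalent: all idempotent matrices over
`k[U]` are stably free for all countable `k` of characteristic zero; the same for all torsion-free
groups and all `k` of characteristic zero; there are uniform bounds `F n s` for all torsion-free groups
and all `k` of characteristic zero or greater than `F n s`. The same holds for the skew fields with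
`p = 0`, for each number `p` (a prime number, or the number `0`, which gives all skew fields). -/
theorem result : ∃ (U : Type) (_ : Group U), Countable U ∧ TF U ∧ ∀ c : Prop,
    List.TFAE [
      ∀ (k : Type) [Ring k], Countable k → Skew c k → CharZ k → SF k U,
      ∀ (k : Type) [Ring k], Skew c k → CharZ k → ∀ (G : Type) [Group G], TF G → SF k G,
      ∃ F : ℕ → ℕ → ℕ, ∀ (n s : ℕ) (k : Type) [Ring k], Skew c k → CharGt (F n s) k →
        ∀ (G : Type) [Group G], TF G → ∀ e : Matrix (Fin n) (Fin n) (MonoidAlgebra k G),
          e * e = e → Small s e → Triv (F n s) e] ∧
    ∀ p : ℕ, List.TFAE [
      ∀ (k : Type) [Ring k], Countable k → Skew c k → (p : k) = 0 → SF k U,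
      ∀ (k : Type) [Ring k], Skew c k → (p : k) = 0 → ∀ (G : Type) [Group G], TF G → SF k G,
      ∃ F : ℕ → ℕ → ℕ, ∀ (n s : ℕ) (k : Type) [Ring k], Skew c k → (p : k) = 0 →
        ∀ (G : Type) [Group G], TF G → ∀ e : Matrix (Fin n) (Fin n) (MonoidAlgebra k G),
          e * e = e → Small s e → Triv (F n s) e] := by
  refine ⟨UU, inferInstance, inferInstance, tfcl_tf RU, fun c => ⟨?_, fun p => ?_⟩⟩
  · exact tfae c (fun k _ => CharZ k) (fun N k _ => CharGt N k)
      (fun k _ h N m hm _ => h m hm) (fun U hU k _ h => charZ_ultra U hU k h)
      (fun k _ h S => charZ_sub k h S)
  · exact tfae c (fun k _ => (p : k) = 0) (fun _ k _ => (p : k) = 0)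
      (fun k _ h N => h) (fun U hU k _ h => char_ultra p U k h)
      (fun k _ h S => char_sub p k h S)

end Pool.Agent.Results.MP_c052b4_al.UniformBounds
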